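import Mathlib
import Pool.Agent.H54.Dpf2

namespace Pool.Agent.Results.MP_38e169_lc.ThreeParty

open Pool.Agent.H54.Dpf

theorem result (G : Type) [AddCommGroup G] [Finite G] :
    ∃ C : ℝ, ∀ N : ℕ, ∃ L : ℕ,
      (L : ℝ) ≤ Real.exp (C * (1 + √(Real.log N * Real.log (Real.log N)))) ∧
      ∃ (Gen : Fin N → G → PMF (Fin 3 → Fin L → Bool))
        (Eval : Fin 3 → (Fin L → Bool) → Fin N → G), IsDPF Gen Eval :=
  main G

end Pool.Agent.Results.MP_38e169_lc.ThreeParty
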